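import Mathlib

set_option autoImplicit false

namespace Pool.Agent.Results.MP_945a85_co.Oval

/-- the distance graph between two loci -/
def distGraph {n : ℕ} (A B : Set (EuclideanSpace ℝ (Fin n))) (d : ℝ) :
    SimpleGraph (A ∪ B : Set (EuclideanSpace ℝ (Fin n))) where
  Adj p q := p ≠ q ∧ ((p.1 ∈ A ∧ q.1 ∈ B) ∨ (p.1 ∈ B ∧ q.1 ∈ A)) ∧ dist p.1 q.1 = d
  symm := ⟨fun _ _ h => ⟨h.1.symm, h.2.1.symm.imp And.symm And.symm, by
    rw [dist_comm]; exact h.2.2⟩⟩
  loopless := ⟨fun _ h => h.1 rfl⟩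

abbrev E3 := EuclideanSpace ℝ (Fin 3)

noncomputable def rad (z : Circle) : ℝ := √(2 + 2 * (z : ℂ).re ^ 2)

noncomputable def pt (h : ℝ) (z : Circle) : E3 :=
  !₂[rad z * (z : ℂ).re, rad z * (z : ℂ).im, h]

theorem unit (z : Circle) : (z : ℂ).re ^ 2 + (z : ℂ).im ^ 2 = 1 := by
  have := z.normSq_coe
  rw [Complex.normSq_apply] at this
  linarith

theorem rad_sq (z : Circle) : rad z ^ 2 = 2 + 2 * (z : ℂ).re ^ 2 :=
  Real.sq_sqrt (by positivity)

theorem rad_gt (z : Circle) : 1 < rad z := by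
  apply Real.lt_sqrt_of_sq_lt
  nlinarith [sq_nonneg (z : ℂ).re]

theorem cont (h : ℝ) : Continuous (pt h) := by
  have h1 : Continuous fun z : Circle => (z : ℂ).re :=
    Complex.continuous_re.comp continuous_subtype_val
  have h2 : Continuous fun z : Circle => (z : ℂ).im :=
    Complex.continuous_im.comp continuous_subtype_val
  have h3 : Continuous rad := by unfold rad; fun_prop
  unfold pt
  refine (PiLp.continuous_toLp 2 _).comp (continuous_pi fun i => ?_)
  fin_cases i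
  · exact h3.mul h1
  · exact h3.mul h2
  · exact continuous_const

theorem pt_inj {h h' : ℝ} {z w : Circle} (e : pt h z = pt h' w) : h = h' ∧ z = w := by
  have e0 : rad z * (z : ℂ).re = rad w * (w : ℂ).re := congrArg (fun p : E3 => p 0) e
  have e1 : rad z * (z : ℂ).im = rad w * (w : ℂ).im := congrArg (fun p : E3 => p 1) e
  have e2 : h = h' := congrArg (fun p : E3 => p 2) e
  refine ⟨e2, ?_⟩
  have hz := rad_gt z
  have hw := rad_gt w
  have : rad z ^ 2 = rad w ^ 2 := by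
    have a : rad z ^ 2 = (rad z * (z : ℂ).re) ^ 2 + (rad z * (z : ℂ).im) ^ 2 := by
      linear_combination (-rad z ^ 2) * unit z
    have b : rad w ^ 2 = (rad w * (w : ℂ).re) ^ 2 + (rad w * (w : ℂ).im) ^ 2 := by
      linear_combination (-rad w ^ 2) * unit w
    rw [a, b, e0, e1]
  have hr : rad z = rad w := by
    have := (sq_eq_sq₀ (by linarith) (by linarith)).1 this
    exact this
  rw [hr] at e0 e1
  apply Subtype.ext
  apply Complex.ext
  · exact mul_left_cancel₀ (by linarith) e0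
  · exact mul_left_cancel₀ (by linarith) e1

def rot : Circle := ⟨Complex.I, by simp [Submonoid.unitSphere]⟩

theorem rot_coe : (rot : ℂ) = Complex.I := rfl

theorem dist_iff {h h' : ℝ} (hh : (h - h') ^ 2 = 3) (z w : Circle) :
    dist (pt h z) (pt h' w) = 3 ↔ w = rot * z ∨ w = rot⁻¹ * z := by
  have hz := rad_gt z
  have hw := rad_gt w
  have uz := unit z
  have uw := unit w
  have sz := rad_sq z
  have sw := rad_sq w
  have hd : dist (pt h z) (pt h' w) = 3 ↔
      (z : ℂ).re * (w : ℂ).re + (z : ℂ).im * (w : ℂ).im = 0 := by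
    rw [EuclideanSpace.dist_eq, Fin.sum_univ_three, Real.sqrt_eq_iff_mul_self_eq (by positivity)
      (by norm_num)]
    simp only [pt, Real.dist_eq, sq_abs]
    simp only [Matrix.cons_val_zero, Matrix.cons_val_one, Matrix.cons_val]
    set a := (z : ℂ).re
    set b := (z : ℂ).im
    set c := (w : ℂ).re
    set d := (w : ℂ).im
    set r := rad z
    set s := rad w
    have key : (r * a - s * c) ^ 2 + (r * b - s * d) ^ 2 + (h - h') ^ 2 - 3 * 3 =
        2 * (a * c + b * d) * ((a * c - b * d) - r * s) := by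
      linear_combination hh + r ^ 2 * uz + s ^ 2 * uw + sz + sw - 2 * c ^ 2 * uz +
        2 * b ^ 2 * uw + 2 * uz
    have hlt : (a * c - b * d) - r * s < 0 := by
      have : a * c - b * d ≤ 1 := by nlinarith [sq_nonneg (a - c), sq_nonneg (b + d)]
      nlinarith
    constructor
    · intro e
      have : 2 * (a * c + b * d) * ((a * c - b * d) - r * s) = 0 := by linarith
      rcases mul_eq_zero.1 this with h1 | h1
      · linarith
      · linarith
    · intro e
      rw [e] at key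
      linarith
  rw [hd]
  have c1 : w = rot * z ↔ (w : ℂ).re = -(z : ℂ).im ∧ (w : ℂ).im = (z : ℂ).re := by
    rw [Circle.ext_iff, Complex.ext_iff]
    simp [rot_coe]
  have c2 : w = rot⁻¹ * z ↔ (w : ℂ).re = (z : ℂ).im ∧ (w : ℂ).im = -(z : ℂ).re := by
    rw [Circle.ext_iff, Complex.ext_iff]
    simp [rot_coe]
  rw [c1, c2]
  set a := (z : ℂ).re
  set b := (z : ℂ).im
  set c := (w : ℂ).re
  set d := (w : ℂ).im
  constructor
  · intro e
    have h1 : (a * d - b * c - 1) * (a * d - b * c + 1) = 0 := by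
      linear_combination (c ^ 2 + d ^ 2) * uz + uw - (a * c + b * d) * e
    rcases mul_eq_zero.1 h1 with h2 | h2
    · left
      exact ⟨by linear_combination a * e - b * h2 - c * uz, by
        linear_combination b * e + a * h2 - d * uz⟩
    · right
      exact ⟨by linear_combination a * e - b * h2 - c * uz, by
        linear_combination b * e + a * h2 - d * uz⟩
  · rintro (⟨h1, h2⟩ | ⟨h1, h2⟩) <;> rw [h1, h2] <;> ring

theorem rot_ne (z : Circle) : rot * z ≠ rot⁻¹ * z := by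
  intro h
  have h1 : rot = rot⁻¹ := mul_right_cancel h
  have := congrArg (fun u : Circle => (u : ℂ).im) h1
  simp [rot_coe] at this
  linarith

theorem rot4 : rot ^ 4 = 1 := by
  apply Subtype.ext
  simp [rot_coe]

noncomputable abbrev A : Set E3 := Set.range (pt 0)
noncomputable abbrev B : Set E3 := Set.range (pt √3)

theorem h3 : (0 : ℝ) ≠ √3 := (Real.sqrt_pos.2 (by norm_num)).ne

theorem adjA (z : Circle) (hp : pt 0 z ∈ A ∪ B) (q : (A ∪ B : Set E3)) :
    (distGraph A B 3).Adj ⟨pt 0 z, hp⟩ q ↔ q.1 = pt √3 (rot * z) ∨ q.1 = pt √3 (rot⁻¹ * z) := by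
  have hh : ((0 : ℝ) - √3) ^ 2 = 3 := by simp
  constructor
  · rintro ⟨-, h | h, hd⟩
    · obtain ⟨w, hw⟩ := h.2
      rw [← hw] at hd ⊢
      rcases (dist_iff hh z w).1 hd with e | e <;> simp [e]
    · obtain ⟨w, hw⟩ := h.1
      exact absurd (pt_inj hw).1.symm h3
  · intro h
    obtain ⟨w, hw, hd⟩ : ∃ w, q.1 = pt √3 w ∧ dist (pt 0 z) (pt √3 w) = 3 := by
      rcases h with h | h
      · exact ⟨_, h, (dist_iff hh z _).2 (Or.inl rfl)⟩
      · exact ⟨_, h, (dist_iff hh z _).2 (Or.inr rfl)⟩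
    refine ⟨fun e => ?_, Or.inl ⟨⟨z, rfl⟩, ⟨w, hw.symm⟩⟩, by rw [hw]; exact hd⟩
    rw [← e] at hw
    exact h3 (pt_inj hw).1

theorem adjB (z : Circle) (hp : pt √3 z ∈ A ∪ B) (q : (A ∪ B : Set E3)) :
    (distGraph A B 3).Adj ⟨pt √3 z, hp⟩ q ↔ q.1 = pt 0 (rot * z) ∨ q.1 = pt 0 (rot⁻¹ * z) := by
  have hh : (√3 - (0 : ℝ)) ^ 2 = 3 := by simp
  constructor
  · rintro ⟨-, h | h, hd⟩
    · obtain ⟨w, hw⟩ := h.1
      exact absurd (pt_inj hw).1 h3
    · obtain ⟨w, hw⟩ := h.2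
      rw [← hw] at hd ⊢
      rcases (dist_iff hh z w).1 hd with e | e <;> simp [e]
  · intro h
    obtain ⟨w, hw, hd⟩ : ∃ w, q.1 = pt 0 w ∧ dist (pt √3 z) (pt 0 w) = 3 := by
      rcases h with h | h
      · exact ⟨_, h, (dist_iff hh z _).2 (Or.inl rfl)⟩
      · exact ⟨_, h, (dist_iff hh z _).2 (Or.inr rfl)⟩
    refine ⟨fun e => ?_, Or.inr ⟨⟨z, rfl⟩, ⟨w, hw.symm⟩⟩, by rw [hw]; exact hd⟩
    rw [← e] at hw
    exact h3 (pt_inj hw).1.symm

theorem two {S : Set E3} {N : Set S} {x y : E3} (hx : x ∈ S) (hy : y ∈ S) (hxy : x ≠ y)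
    (h : ∀ q : S, q ∈ N ↔ q.1 = x ∨ q.1 = y) : N.encard = 2 := by
  have : N = {⟨x, hx⟩, ⟨y, hy⟩} := by
    ext q
    rw [h]
    simp [Subtype.ext_iff]
  rw [this]
  exact Set.encard_pair (fun e => hxy (congrArg Subtype.val e))

/-- invariant of components: the fourth power of the parameter -/
theorem inv {p q : (A ∪ B : Set E3)} (h : (distGraph A B 3).Reachable p q) (u : Circle)
    (hp : ∃ h z, p.1 = pt h z ∧ (h = 0 ∨ h = √3) ∧ z ^ 4 = u) :
    ∃ h z, q.1 = pt h z ∧ (h = 0 ∨ h = √3) ∧ z ^ 4 = u := by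
  obtain ⟨w⟩ := h
  induction w with
  | nil => exact hp
  | @cons a b c hab _ ih =>
    apply ih
    obtain ⟨a, ha⟩ := a
    obtain ⟨h, z, e, hh, hz⟩ := hp
    simp only at e
    subst e
    have r1 : (rot * z) ^ 4 = u := by rw [mul_pow, rot4, one_mul, hz]
    have r2 : (rot⁻¹ * z) ^ 4 = u := by rw [mul_pow, inv_pow, rot4, inv_one, one_mul, hz]
    rcases hh with rfl | rfl
    · rcases (adjA z ha b).1 hab with e | e
      · exact ⟨_, _, e, Or.inr rfl, r1⟩
      · exact ⟨_, _, e, Or.inr rfl, r2⟩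
    · rcases (adjB z ha b).1 hab with e | e
      · exact ⟨_, _, e, Or.inl rfl, r1⟩
      · exact ⟨_, _, e, Or.inl rfl, r2⟩

theorem fin4 (u : Circle) : {z : Circle | z ^ 4 = u}.Finite := by
  have h1 : {x : ℂ | x ^ 4 = u}.Finite := by
    apply (Polynomial.nthRoots 4 (u : ℂ)).toFinset.finite_toSet.subset
    intro x hx
    simp only [Finset.mem_coe, Multiset.mem_toFinset]
    exact (Polynomial.mem_nthRoots (by norm_num)).2 hx
  refine Set.Finite.of_injOn (f := fun z : Circle => (z : ℂ)) ?_ Subtype.val_injective.injOn h1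
  intro z hz
  have : z ^ 4 = u := hz
  simp [← this]

theorem result : ∃ (n : ℕ) (d : ℝ) (γ η : Circle → EuclideanSpace ℝ (Fin n)),
    0 < d ∧ Continuous γ ∧ Continuous η ∧ Function.Injective γ ∧ Function.Injective η ∧
    Disjoint (Set.range γ) (Set.range η) ∧
    (∃ (l : ℝ) (v : EuclideanSpace ℝ (Fin n)), l ≠ 0 ∧
      Set.range η = (fun x => l • x + v) '' Set.range γ) ∧
    ¬ EuclideanGeometry.Cospherical (Set.range γ) ∧
    (∀ p, ((distGraph (Set.range γ) (Set.range η) d).neighborSet p).encard = 2) ∧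
    ∀ p, {q | (distGraph (Set.range γ) (Set.range η) d).Reachable p q}.Finite := by
  refine ⟨3, 3, pt 0, pt √3, by norm_num, cont _, cont _, fun _ _ e => (pt_inj e).2,
    fun _ _ e => (pt_inj e).2, ?_, ⟨1, !₂[0, 0, √3], one_ne_zero, ?_⟩, ?_, ?_, ?_⟩
  · rw [Set.disjoint_left]
    rintro _ ⟨z, rfl⟩ ⟨w, hw⟩
    exact h3 (pt_inj hw).1.symm
  · rw [← Set.range_comp]
    congr 1
    funext z
    ext i
    fin_cases i <;> simp [pt]
  · rintro ⟨c, r, hc⟩
    have key : ∀ z : Circle, (rad z * (z : ℂ).re - c 0) ^ 2 + (rad z * (z : ℂ).im - c 1) ^ 2 +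
        (0 - c 2) ^ 2 = r ^ 2 := by
      intro z
      rw [← hc _ ⟨z, rfl⟩, EuclideanSpace.dist_eq, Real.sq_sqrt (by positivity),
        Fin.sum_univ_three]
      simp [pt, Real.dist_eq]
    have k1 := key 1
    have k2 := key (rot * rot)
    have k3 := key rot
    have k4 := key rot⁻¹
    have s1 := rad_sq 1
    have s2 := rad_sq (rot * rot)
    have s3 := rad_sq rot
    have s4 := rad_sq rot⁻¹
    have g1 := rad_gt 1
    have g2 := rad_gt (rot * rot)
    have g3 := rad_gt rot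
    have g4 := rad_gt rot⁻¹
    simp [rot_coe] at k1 k2 k3 k4 s1 s2 s3 s4
    have e1 : rad 1 = rad (rot * rot) := (sq_eq_sq₀ (by linarith) (by linarith)).1 (by linarith)
    have e2 : rad rot = rad rot⁻¹ := (sq_eq_sq₀ (by linarith) (by linarith)).1 (by linarith)
    rw [← e1] at k2
    rw [← e2] at k4
    nlinarith
  · rintro ⟨p, ⟨z, rfl⟩ | ⟨z, rfl⟩⟩
    · exact two (Or.inr ⟨_, rfl⟩) (Or.inr ⟨_, rfl⟩) (fun e => rot_ne z (pt_inj e).2)
        (adjA z _)
    · exact two (Or.inl ⟨_, rfl⟩) (Or.inl ⟨_, rfl⟩) (fun e => rot_ne z (pt_inj e).2)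
        (adjB z _)
  · intro p
    obtain ⟨u, hu⟩ : ∃ u : Circle, ∃ h z, p.1 = pt h z ∧ (h = 0 ∨ h = √3) ∧ z ^ 4 = u := by
      obtain ⟨p, ⟨z, rfl⟩ | ⟨z, rfl⟩⟩ := p
      · exact ⟨_, _, z, rfl, Or.inl rfl, rfl⟩
      · exact ⟨_, _, z, rfl, Or.inr rfl, rfl⟩
    refine Set.Finite.of_injOn (f := Subtype.val) ?_ Subtype.val_injective.injOn
      (((fin4 u).image (pt 0)).union ((fin4 u).image (pt √3)))
    intro q hq
    obtain ⟨h, z, e, rfl | rfl, hz⟩ := inv hq u hu
    · exact Or.inl ⟨z, hz, e.symm⟩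
    · exact Or.inr ⟨z, hz, e.symm⟩

end Pool.Agent.Results.MP_945a85_co.Oval
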